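import Pool.Agent.L7h17.RF.Fin

set_option autoImplicit false

/-!
# The second dual of the Fourier algebra of an infinite locally compact group is never semisimple

Definitions used by the statement (files `Pool/Agent/L7h17/RF/Fou.lean`,
`Pool/Agent/H434R3/Arens.lean`):

* `coeff μ ξ η s = ∫ ξ(s⁻¹ y) * conj (η y) dμ(y) = ⟨λ(s) ξ, η⟩`, `λ` the left regular
  representation;
* `IsRep μ u r`: `u = ⟨λ(·) ξ, η⟩` for some `ξ, η ∈ L²(G, μ)` with `‖ξ‖₂ ‖η‖₂ = r`;
* `FourierAlg μ A`: the normed algebra `A` is the Fourier algebra `A(G)`: it is identified with the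
  set of all functions `⟨λ(·) ξ, η⟩`, `ξ, η ∈ L²(G, μ)`, with the pointwise operations, and with the
  norm `‖u‖ = inf ‖ξ‖₂ ‖η‖₂` over all representations of `u`;
* `Bidual A`: the second dual `A''` with the first Arens product;
* `InRad Φ`: `Φ` lies in the Jacobson radical (of the unitization; `A''` need not be unital).

The proof is the joint work of the project RF: helper17 (plan, walk construction, test operators,
Arens part, assembly), helper97 (spectral blocks, double commutant argument, functionals),
helper22 (operators `∫ g(s) λ(s) ds`, vectors with small support), helper73 (discrete groups).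
-/

namespace Pool.Agent.Results.MP_129c4a_an.RadicalNeverZero

universe v

open MeasureTheory
open H434R3.Arens Pool.Agent.L7h17.RF

/-- **Let `G` be an infinite locally compact (Hausdorff) group with left Haar measure `μ`, and let
`A = A(G)` be its Fourier algebra. Then the second dual `A(G)''` with the first Arens product is not
semisimple: there is `Φ ≠ 0` in the radical of `(A(G)'', □)`, and even with `Φ □ Ψ □ Φ = 0` for all
`Ψ ∈ A(G)''`.** -/
theorem result (G : Type) [Group G] [TopologicalSpace G] [IsTopologicalGroup G]
    [LocallyCompactSpace G] [T2Space G] [MeasurableSpace G] [BorelSpace G] [Infinite G]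
    (μ : Measure G) [μ.IsHaarMeasure] [μ.Regular]
    (A : Type v) [NonUnitalNormedRing A] [NormedSpace ℂ A] [IsScalarTower ℂ A A]
    [SMulCommClass ℂ A A] (M : FourierAlg μ A) :
    ∃ Φ : Bidual A, Φ ≠ 0 ∧ InRad Φ ∧ ∀ Ψ : Bidual A, Φ * Ψ * Φ = 0 :=
  final G μ A (M.toFAW μ)

end Pool.Agent.Results.MP_129c4a_an.RadicalNeverZero
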